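import Mathlib
import Pool.Agent.J6H21.Coal.Tail5

set_option autoImplicit false

/-! The proportion of the integers `n` for which the `3x+1` trajectories of `n` and `3 ^ i n + r` have not
met after `K` steps, and a bound for the number of the `n` in an interval for which some cycle is entered by
exactly one of these two trajectories. -/

namespace Pool.Agent.Results.MP_edb5be_nt.CoalescenceTail

/-- The `3x+1` map on the integers. -/
def T (x : ℤ) : ℤ := if x % 2 = 0 then x / 2 else (3 * x + 1) / 2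

/-- `Z` is a cycle of `T`. -/
def IsCycle (Z : Finset ℤ) : Prop :=
  ∃ (x : ℤ) (p : ℕ), 1 ≤ p ∧ T^[p] x = x ∧ Z = (Finset.range p).image fun i => T^[i] x

/-- The trajectory of `x` enters `Z`. -/
def Enters (x : ℤ) (Z : Finset ℤ) : Prop := ∃ k : ℕ, T^[k] x ∈ Z

/-- The error function. -/
noncomputable def erf (x : ℝ) : ℝ := 2 / √ Real.pi * ∫ t in (0 : ℝ)..x, Real.exp (-t ^ 2)

/-- The number of the integers `n` in `(X, X + Y]` for which `T ^ K (3 ^ i n + r)` and `T ^ K n` differ. -/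
noncomputable def apart (K i : ℕ) (r X : ℤ) (Y : ℕ) : ℕ :=
  ((Finset.Ioc X (X + Y)).filter (fun n => T^[K] (3 ^ i * n + r) ≠ T^[K] n)).card

open Classical in
/-- The number of the integers `n` in `(X, X + Y]` such that some cycle is entered by exactly one of the
trajectories of `n` and `3 ^ i n + r`. -/
noncomputable def separated (i : ℕ) (r X : ℤ) (Y : ℕ) : ℕ :=
  ((Finset.Ioc X (X + Y)).filter (fun n => ∃ Z : Finset ℤ, IsCycle Z ∧
    ¬ (Enters (3 ^ i * n + r) Z ↔ Enters n Z))).card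

theorem cyc_step {Z : Finset ℤ} (hZ : IsCycle Z) {y : ℤ} (hy : y ∈ Z) : T y ∈ Z := by
  obtain ⟨x, p, hp, hx, rfl⟩ := hZ
  obtain ⟨i, hi, rfl⟩ := Finset.mem_image.1 hy
  rw [Finset.mem_range] at hi
  rw [← Function.iterate_succ_apply' T i x, Finset.mem_image]
  rcases Nat.lt_or_ge (i + 1) p with h | h
  · exact ⟨i + 1, Finset.mem_range.2 h, rfl⟩
  · have e : i + 1 = p := by omega
    refine ⟨0, Finset.mem_range.2 (by omega), ?_⟩
    rw [Nat.succ_eq_add_one, e, hx]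
    rfl

theorem enters_iff {Z : Finset ℤ} (hZ : IsCycle Z) (K : ℕ) (x : ℤ) : Enters x Z ↔ Enters (T^[K] x) Z := by
  constructor
  · rintro ⟨k, hk⟩
    have h : ∀ j : ℕ, T^[j + k] x ∈ Z := by
      intro j
      induction j with
      | zero => rwa [Nat.zero_add]
      | succ j ih =>
        rw [show j + 1 + k = (j + k) + 1 by ring, Function.iterate_succ_apply']
        exact cyc_step hZ ih
    refine ⟨k, ?_⟩
    rw [← Function.iterate_add_apply, Nat.add_comm]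
    exact h K
  · rintro ⟨k, hk⟩
    exact ⟨k + K, by rwa [Function.iterate_add_apply]⟩

theorem separated_le (K i : ℕ) (r X : ℤ) (Y : ℕ) : separated i r X Y ≤ apart K i r X Y := by
  classical
  unfold separated apart
  apply Finset.card_le_card
  intro n hn
  rw [Finset.mem_filter] at hn ⊢
  refine ⟨hn.1, fun h => ?_⟩
  obtain ⟨Z, hZ, hne⟩ := hn.2
  apply hne
  rw [enters_iff hZ K (3 ^ i * n + r), enters_iff hZ K n, h]

theorem result : ∃ V : ℕ → ℤ → ℝ,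
    (∀ i r, (i, r) ≠ (0, 0) → 0 < V i r) ∧
    (∃ c : ℝ, ∀ i r, i ≤ V i r ∧ V i r ≤ i + c * (1 + √ (|(r : ℝ)| / 3 ^ i))) ∧
    (∀ i r, ∀ ε : ℝ, 0 < ε → ∃ K₀ : ℕ, ∀ K : ℕ, K₀ ≤ K → ∀ (X : ℤ) (Y : ℕ), K * 2 ^ K ≤ Y →
      |√ K * (apart K i r X Y / Y) - 2 / √ Real.pi * V i r| ≤ ε) ∧
    (∀ R ε : ℝ, 0 < ε → ∃ (C : ℝ) (K₀ : ℕ), ∀ K : ℕ, K₀ ≤ K → ∀ (i : ℕ) (r : ℤ), (i, r) ≠ (0, 0) →
      |(r : ℝ)| ≤ R * 3 ^ i → ∀ (X : ℤ) (Y : ℕ), C * √ K * 2 ^ K ≤ Y →
        |apart K i r X Y - erf (V i r / √ K) * Y| ≤ ε * (erf (V i r / √ K) * Y)) ∧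
    (∀ R ε : ℝ, 0 < ε → ∃ Y₀ : ℕ, ∀ (i : ℕ) (r X : ℤ) (Y : ℕ), |(r : ℝ)| ≤ R * 3 ^ i → Y₀ ≤ Y →
      0 < Real.logb 2 Y ∧
      separated i r X Y ≤ (1 + ε) * (2 / √ Real.pi) * V i r / √ (Real.logb 2 Y) * Y) := by
  have hA : apart = Pool.Agent.J6H21.Coal.apart := rfl
  have hE : erf = Pool.Agent.J6H21.Coal.erf := rfl
  rw [hA, hE]
  obtain ⟨c, _, hc⟩ := Pool.Agent.J6H21.Coal.VV_bounds
  refine ⟨fun i r => Pool.Agent.J6H21.Coal.VV (i, r), ?_, ⟨c, fun i r => ⟨?_, hc i r⟩⟩, ?_, ?_, ?_⟩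
  · intro i r ho
    have h := Pool.Agent.J6H21.Coal.VV_lower (R := max 1 |(r : ℝ)|) (le_max_left _ _) i r ho (by
      have h1 : (1 : ℝ) ≤ 3 ^ i := one_le_pow₀ (by norm_num)
      have h2 : |(r : ℝ)| ≤ max 1 |(r : ℝ)| := le_max_right _ _
      have h3 : 0 ≤ max 1 |(r : ℝ)| := (abs_nonneg _).trans h2
      nlinarith)
    exact lt_of_lt_of_le (by positivity) h
  · exact Pool.Agent.J6H21.Coal.VV_ge (i, r)
  · intro i r ε hε
    exact Pool.Agent.J6H21.Coal.apart_fixed i r hε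
  · intro R ε hε
    exact Pool.Agent.J6H21.Coal.apart_rel hε
  · intro R ε hε
    obtain ⟨Y0, h⟩ := Pool.Agent.J6H21.Coal.apart_le (R := R) hε
    refine ⟨Y0, fun i r X Y hr hY => ?_⟩
    obtain ⟨h1, K, h2⟩ := h i r X Y hY hr
    refine ⟨h1, le_trans ?_ h2⟩
    rw [← hA]
    exact_mod_cast separated_le K i r X Y

end Pool.Agent.Results.MP_edb5be_nt.CoalescenceTail
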